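import Pool.Agent.helper7.UL.SpecN

/-!
Row ul:NUN (MP_62ffdf_lc): finite unions.
-/

set_option autoImplicit false

namespace Pool.Agent.UL

open FirstOrder Language

theorem NUN_empty (α : Type) [Fintype α] : Atm (∅ : Set (α → ℕ)) :=
  ⟨Empty, inferInstance, fun i => i.elim, fun i => i.elim, fun i => i.elim, ∅,
    fun i => i.elim, fun _ => ⟨fun h => h.elim, fun h => h.elim⟩⟩

theorem NUN_union {α : Type} [Fintype α] {s s' : Set (α → ℕ)} (h : Atm s) (h' : Atm s') :
    Atm (s ∪ s') := by
  obtain ⟨ι, hι, lam, kap, N, F, hN, hs⟩ := h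
  obtain ⟨ι', hι', lam', kap', N', F', hN', hs'⟩ := h'
  refine ⟨ι ⊕ ι', inferInstance, Sum.elim lam lam', Sum.elim kap kap', Sum.elim N N',
    {g | (fun i => g (Sum.inl i)) ∈ F ∨ (fun i => g (Sum.inr i)) ∈ F'}, ?_, ?_⟩
  · rintro (i | i)
    · exact hN i
    · exact hN' i
  · intro x
    exact or_congr (hs x) (hs' x)

theorem NUN : NUN_stmt := by
  intro α _ S hS
  induction S, hS using Set.Finite.induction_on with
  | empty =>
    intro _
    rw [Set.sUnion_empty]
    exact NUN_empty α
  | insert _ _ ih =>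
    intro h
    rw [Set.sUnion_insert]
    exact NUN_union (h _ (Set.mem_insert _ _)) (ih fun s hs => h s (Set.mem_insert_of_mem _ hs))

end Pool.Agent.UL
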